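import Pool.Agent.W200.MR.Stm

/-!
# Project MR (MP_c45d52_nt), part EX1: sum of the weighted mean values over the primes
-/

open Finset Filter Topology MeasureTheory

namespace Pool.Agent.W446.MR

open Pool.Agent.W200.MR

theorem continuous_pw (n : ℕ) : Continuous fun t : ℝ => pw t n := by
  unfold pw
  fun_prop

theorem t_EX1 : S_WT → S_EX1 := by
  intro hW T m U hm hU
  have hm0 : (0 : ℝ) < m := by exact_mod_cast hm
  have hev : ∀ᶠ S : ℝ in atTop, ∀ p ∈ (range T).filter Nat.Prime,
      (1 / S) * ∫ t in S..(2 * S), ‖∑ u ∈ U, pw t u‖ ^ 2 * ‖pw t p - 1‖ ^ 2 ≤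
        (2 / m + 1 / m) * U.card := by
    rw [Filter.eventually_all_finset]
    intro p hp
    rw [Finset.mem_filter, Finset.mem_range] at hp
    exact (hW T m U hm hU (1 / m) (by positivity)).2.1 p hp.2 hp.1
  filter_upwards [hev] with S hS
  have hcont : ∀ p : ℕ, Continuous fun t : ℝ => ‖∑ u ∈ U, pw t u‖ ^ 2 * ‖pw t p - 1‖ ^ 2 := by
    intro p
    have h1 : Continuous fun t : ℝ => ∑ u ∈ U, pw t u :=
      continuous_finsetSum _ fun u _ => continuous_pw u
    have h2 := continuous_pw p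
    fun_prop
  have hint : ∫ t in S..(2 * S),
      ‖∑ u ∈ U, pw t u‖ ^ 2 * (∑ p ∈ (range T).filter Nat.Prime, ‖pw t p - 1‖ ^ 2) =
      ∑ p ∈ (range T).filter Nat.Prime,
        ∫ t in S..(2 * S), ‖∑ u ∈ U, pw t u‖ ^ 2 * ‖pw t p - 1‖ ^ 2 := by
    rw [← intervalIntegral.integral_finsetSum fun p _ => (hcont p).intervalIntegrable _ _]
    refine intervalIntegral.integral_congr fun t _ => ?_
    beta_reduce
    rw [Finset.mul_sum]
  rw [hint, Finset.mul_sum]
  have hcard : (((range T).filter Nat.Prime).card : ℝ) ≤ T := by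
    have := Finset.card_filter_le (range T) Nat.Prime
    rw [Finset.card_range] at this
    exact_mod_cast this
  calc ∑ p ∈ (range T).filter Nat.Prime,
        (1 / S) * ∫ t in S..(2 * S), ‖∑ u ∈ U, pw t u‖ ^ 2 * ‖pw t p - 1‖ ^ 2
      ≤ ∑ _p ∈ (range T).filter Nat.Prime, (2 / m + 1 / m : ℝ) * U.card :=
        Finset.sum_le_sum hS
    _ = (((range T).filter Nat.Prime).card : ℝ) * ((2 / m + 1 / m : ℝ) * U.card) := by
        rw [Finset.sum_const, nsmul_eq_mul]
    _ ≤ T * ((2 / m + 1 / m : ℝ) * U.card) :=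
        mul_le_mul_of_nonneg_right hcard (by positivity)
    _ = 3 * T / m * U.card := by
        field_simp
        ring

end Pool.Agent.W446.MR
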